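import Pool.Agent.Work.MP_af796d_an.Suff

namespace Pool.Agent.Work.MP_af796d_an.Parked.DyadicSufficient

open Pool.Agent.Work.MP_af796d_an in
/-- If, for φ = ψ and for φ = ψ⁻¹, uniformly in the base point y, the function
t ↦ log |φ(e^{it}) - φ(e^{iy})| is on the dyadic arcs around y a multiple c_k of
log |e^{it} - e^{iy}| up to summable variations, with c_k of bounded variation in k, then
Re A = Re A ∘ ψ. -/
theorem result (ψ : Circle ≃ₜ Circle)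
    (h₁ : ∃ C : NNReal, ∀ y : ℝ, ∃ c : ℕ → ℝ,
      ∑' k : ℕ, (ENNReal.ofReal |c (k + 1) - c k| + dyadicVar ψ y (c k) k) ≤ C)
    (h₂ : ∃ C : NNReal, ∀ y : ℝ, ∃ c : ℕ → ℝ,
      ∑' k : ℕ, (ENNReal.ofReal |c (k + 1) - c k| + dyadicVar ψ.symm y (c k) k) ≤ C) :
    ReA = (fun u : Circle → ℝ => u ∘ ψ) '' ReA :=
  (eq_iff_both ψ).2 ⟨comp_mem_of_dyadic ψ h₂, comp_mem_of_dyadic ψ.symm h₁⟩

end Pool.Agent.Work.MP_af796d_an.Parked.DyadicSufficient
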