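import Pool.Agent.Work.MP_af796d_an.Nec0

namespace Pool.Agent.Work.MP_af796d_an.Parked.LogPotential

open Pool.Agent.Work.MP_af796d_an in
/-- A homeomorphism ψ of the circle satisfies Re A = Re A ∘ ψ if and only if, for φ = ψ and for
φ = ψ⁻¹, the functions t ↦ log |φ(e^{it}) - φ(e^{iy})| are, uniformly in y, the sum of a function
of bounded variation and the logarithmic potential of a finite signed measure on the circle. -/
theorem result (ψ : Circle ≃ₜ Circle) :
    ReA = (fun u : Circle → ℝ => u ∘ ψ) '' ReA ↔ LogPotCond ψ ∧ LogPotCond ψ.symm :=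
  logPot_main ψ

end Pool.Agent.Work.MP_af796d_an.Parked.LogPotential
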